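import Mathlib

/-!
# MP_8a8b2f_an: contraction semigroups, the generator, conditions (i) and (ii)
-/

set_option autoImplicit false

open Set Filter Topology

noncomputable section

namespace Pool.Agent.Lib.MP_8a8b2f_an.K

/-- `(T(t))_{t ≥ 0}` is a `C_0`-semigroup of contractions on `H` (the values `T t` for `t < 0` are
irrelevant): `T(0) = 1`, `T(s+t) = T(s) T(t)`, every orbit `t ↦ T(t) x` is continuous on `[0,∞)`,
and `‖T(t)‖ ≤ 1`. -/
structure IsContractionSemigroup {H : Type} [NormedAddCommGroup H] [InnerProductSpace ℂ H]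
    (T : ℝ → H →L[ℂ] H) : Prop where
  zero : T 0 = ContinuousLinearMap.id ℂ H
  add : ∀ s t : ℝ, 0 ≤ s → 0 ≤ t → T (s + t) = (T s).comp (T t)
  continuousOn : ∀ x : H, ContinuousOn (fun t : ℝ => T t x) (Ici 0)
  contraction : ∀ t : ℝ, 0 ≤ t → ‖T t‖ ≤ 1

/-- `x` lies in the domain `D(A)` of the generator `A` of `(T(t))`, and `A x = y`:
`y` is the limit of `(T(h) x - x)/h` as `h` decreases to `0`. -/
def GeneratorMaps {H : Type} [NormedAddCommGroup H] [InnerProductSpace ℂ H]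
    (T : ℝ → H →L[ℂ] H) (x y : H) : Prop :=
  Tendsto (fun h : ℝ => ((h : ℂ)⁻¹) • (T h x - x)) (𝓝[>] 0) (𝓝 y)

/-- Condition (i) with the constant `m`: `‖(μ - A) x‖ ≥ m |Re μ| ‖x‖` for all `μ` with
`Re μ < 0` and all `x` in the domain of the generator `A`. -/
def ConditionI {H : Type} [NormedAddCommGroup H] [InnerProductSpace ℂ H]
    (T : ℝ → H →L[ℂ] H) (m : ℝ) : Prop :=
  ∀ x y : H, GeneratorMaps T x y → ∀ μ : ℂ, μ.re < 0 → m * |μ.re| * ‖x‖ ≤ ‖μ • x - y‖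

/-- Condition (ii): some `m₁ > 0` has `‖T(t) x‖ ≥ m₁ ‖x‖` for all `t ≥ 0` and all `x`. -/
def ConditionII {H : Type} [NormedAddCommGroup H] [InnerProductSpace ℂ H]
    (T : ℝ → H →L[ℂ] H) : Prop :=
  ∃ m₁ : ℝ, 0 < m₁ ∧ ∀ t : ℝ, 0 ≤ t → ∀ x : H, m₁ * ‖x‖ ≤ ‖T t x‖

end Pool.Agent.Lib.MP_8a8b2f_an.K
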