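import Pool.Agent.Lib.MP_8a8b2f_an.K.Main

/-!
# MP_8a8b2f_an: strong continuity, strong stability and lower bounds of the translation semigroup
-/

set_option autoImplicit false

open MeasureTheory Set Filter Topology
open scoped ENNReal NNReal InnerProductSpace

noncomputable section

namespace Pool.Agent.Lib.MP_8a8b2f_an.K

variable {k : ℝ} (hk : 0 ≤ k)

lemma tendsto_T_cc {g : ℝ → ℂ} (hg : Continuous g) (hcs : HasCompactSupport g)
    (hgL : MemLp g 2 (nu k)) :
    Tendsto (fun h : ℝ => T hk h (hgL.toLp g)) (𝓝[≥] 0) (𝓝 (hgL.toLp g)) := by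
  set G : H k := hgL.toLp g with hG
  have hGc : G =ᵐ[nu k] g := MemLp.coeFn_toLp hgL
  obtain ⟨M, hM⟩ := hcs.exists_bound_of_continuous hg
  have hM0 : 0 ≤ M := (norm_nonneg _).trans (hM 0)
  obtain ⟨R, hR⟩ := hcs.isCompact.isBounded.subset_closedBall 0
  have hz : ∀ x : ℝ, x ∉ Icc (-R) R → g x = 0 := by
    intro x hx
    by_contra hne
    have h1 : x ∈ tsupport g := subset_tsupport g hne
    have h2 := hR h1
    rw [Real.closedBall_eq_Icc, zero_sub, zero_add] at h2
    exact hx h2
  rw [tendsto_iff_norm_sub_tendsto_zero]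
  have key : Tendsto (fun h : ℝ => ∫ x, ‖sh h g x - g x‖ ^ 2 ∂(nu k)) (𝓝[≥] 0) (𝓝 0) := by
    have h0 : ∫ x, (0 : ℝ) ∂(nu k) = 0 := by simp
    have hmain : Tendsto (fun h : ℝ => ∫ x, ‖sh h g x - g x‖ ^ 2 ∂(nu k)) (𝓝[≥] 0)
        (𝓝 (∫ x, (0 : ℝ) ∂(nu k))) := ?_
    · rwa [h0] at hmain
    refine tendsto_integral_filter_of_dominated_convergence
      ((Icc (-R) (R + 1)).indicator (fun _ => (2 * M) ^ 2)) ?_ ?_ ?_ ?_
    · refine Eventually.of_forall fun h => ?_
      have hm : Measurable (sh h g) :=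
        (hg.measurable.comp (measurable_shift h)).indicator measurableSet_Ioi
      exact ((hm.sub hg.measurable).norm.pow_const 2).aestronglyMeasurable
    · have hsmall : ∀ᶠ h : ℝ in 𝓝[≥] 0, 0 ≤ h ∧ h ≤ 1 := by
        filter_upwards [self_mem_nhdsWithin,
          (eventually_le_nhds (show (0 : ℝ) < 1 by norm_num)).filter_mono nhdsWithin_le_nhds]
          with h h1 h2
        exact ⟨h1, h2⟩
      filter_upwards [hsmall] with h hh
      refine Eventually.of_forall fun x => ?_
      rw [norm_pow, norm_norm]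
      by_cases hx : x ∈ Icc (-R) (R + 1)
      · rw [indicator_of_mem hx]
        have hs : ‖sh h g x‖ ≤ M := by
          unfold sh indicator
          split_ifs
          · exact hM _
          · simpa using hM0
        have : ‖sh h g x - g x‖ ≤ 2 * M :=
          (norm_sub_le _ _).trans (by linarith [hM x])
        exact pow_le_pow_left₀ (norm_nonneg _) this 2
      · rw [indicator_of_notMem hx]
        have h1 : g x = 0 := hz x fun h2 => hx ⟨h2.1, by linarith [h2.2]⟩
        have h3 : sh h g x = 0 := by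
          unfold sh indicator
          split_ifs
          · apply hz
            rintro ⟨h4, h5⟩
            apply hx
            exact ⟨by linarith [hh.1], by linarith [hh.2]⟩
          · rfl
        rw [h1, h3]
        simp
    · refine (integrable_indicator_iff measurableSet_Icc).2 ?_
      exact integrableOn_const (isCompact_Icc.measure_lt_top).ne
    · filter_upwards [ae_pos k] with x hx
      have h1 : Tendsto (fun h : ℝ => ‖g (x - h) - g x‖ ^ 2) (𝓝[≥] 0) (𝓝 (‖g (x - 0) - g x‖ ^ 2)) := by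
        apply tendsto_nhdsWithin_of_tendsto_nhds
        apply Continuous.tendsto
        fun_prop
      rw [sub_zero, sub_self, norm_zero, zero_pow two_ne_zero] at h1
      refine h1.congr' ?_
      have : ∀ᶠ h : ℝ in 𝓝[≥] 0, h < x :=
        (eventually_lt_nhds hx).filter_mono nhdsWithin_le_nhds
      filter_upwards [this] with h hh
      simp [sh, indicator, hh]
  have h2 : (fun h : ℝ => ‖T hk h G - G‖) =ᶠ[𝓝[≥] 0]
      (fun h => Real.sqrt (∫ x, ‖sh h g x - g x‖ ^ 2 ∂(nu k))) := by
    filter_upwards [self_mem_nhdsWithin] with h hh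
    rw [← Real.sqrt_sq (norm_nonneg (T hk h G - G)), norm_sq_eq]
    congr 1
    apply integral_congr_ae
    filter_upwards [Lp.coeFn_sub (T hk h G) G, coeFn_T hk hh G, sh_congr hk hh hGc, hGc]
      with x e1 e2 e3 e4
    rw [e1, Pi.sub_apply, e2, e3, e4]
  have h3 := (Real.continuous_sqrt.tendsto 0).comp key
  rw [Real.sqrt_zero] at h3
  exact h3.congr' h2.symm

lemma tendsto_T (f : H k) : Tendsto (fun h : ℝ => T hk h f) (𝓝[≥] 0) (𝓝 f) := by
  rw [Metric.tendsto_nhds]
  intro ε hε
  obtain ⟨g, hcs, hle, hg, hgL⟩ := (Lp.memLp f).exists_hasCompactSupport_eLpNorm_sub_le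
    (by norm_num : (2 : ℝ≥0∞) ≠ ∞) (ε := ENNReal.ofReal (ε / 4))
    (by simpa using (by positivity : 0 < ε / 4))
  set G : H k := hgL.toLp g with hG
  have hfG : dist f G < ε / 3 := by
    have h1 : f - G = ((Lp.memLp f).sub hgL).toLp (⇑f - g) := by
      rw [MemLp.toLp_sub (Lp.memLp f) hgL, Lp.toLp_coeFn]
    rw [dist_eq_norm, h1, Lp.norm_toLp]
    have h2 : (eLpNorm (⇑f - g) 2 (nu k)).toReal ≤ ε / 4 := by
      refine ENNReal.toReal_le_of_le_ofReal (by positivity) hle
    linarith
  have h1 := (Metric.tendsto_nhds.1 (tendsto_T_cc hk hg hcs hgL)) (ε / 3) (by positivity)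
  filter_upwards [h1] with h hh
  have h2 : dist (T hk h f) (T hk h G) ≤ dist f G := by
    rw [dist_eq_norm, ← map_sub, dist_eq_norm]
    exact norm_T_apply_le hk h _
  calc dist (T hk h f) f ≤ dist (T hk h f) (T hk h G) + dist (T hk h G) G + dist G f :=
        dist_triangle4 _ _ _ _
    _ < ε := by
        rw [dist_comm G f]
        linarith

lemma norm_T_sub_le {s t : ℝ} (hs : 0 ≤ s) (ht : 0 ≤ t) (f : H k) :
    ‖T hk s f - T hk t f‖ ≤ ‖T hk |s - t| f - f‖ := by
  have key : ∀ s t : ℝ, 0 ≤ s → s ≤ t → ‖T hk s f - T hk t f‖ ≤ ‖T hk |s - t| f - f‖ := by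
    intro s t hs hst
    have e : T hk t = (T hk s).comp (T hk |s - t|) := by
      rw [← T_add hk hs (abs_nonneg _), abs_of_nonpos (by linarith)]
      congr 1; ring
    have e2 : T hk s f - T hk t f = T hk s (f - T hk |s - t| f) := by
      rw [e, ContinuousLinearMap.comp_apply, map_sub]
    rw [e2]
    refine (norm_T_apply_le hk s _).trans ?_
    rw [norm_sub_rev]
  rcases le_total s t with h | h
  · exact key s t hs h
  · rw [norm_sub_rev, abs_sub_comm]
    exact key t s ht h

lemma continuousOn_T (f : H k) : ContinuousOn (fun t : ℝ => T hk t f) (Ici 0) := by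
  intro t ht
  have ht' : (0:ℝ) ≤ t := ht
  rw [ContinuousWithinAt, tendsto_iff_norm_sub_tendsto_zero]
  have h1 : Tendsto (fun s : ℝ => |s - t|) (𝓝[Ici 0] t) (𝓝[≥] 0) := by
    apply tendsto_nhdsWithin_of_tendsto_nhds_of_eventually_within
    · have : Tendsto (fun s : ℝ => |s - t|) (𝓝 t) (𝓝 |t - t|) := by
        apply Continuous.tendsto; fun_prop
      rw [sub_self, abs_zero] at this
      exact this.mono_left nhdsWithin_le_nhds
    · exact Eventually.of_forall fun s => (abs_nonneg (s - t) : (0:ℝ) ≤ |s - t|)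
  have h2 := (tendsto_T hk f).comp h1
  have h3 := tendsto_iff_norm_sub_tendsto_zero.1 h2
  refine squeeze_zero' (Eventually.of_forall fun _ => norm_nonneg _) ?_ h3
  filter_upwards [self_mem_nhdsWithin] with s hs
  exact norm_T_sub_le hk hs ht' f

lemma norm_T_sq {t : ℝ} (ht : 0 ≤ t) (f : H k) :
    ‖T hk t f‖ ^ 2 = ∫ x, rho k t x * ‖f x‖ ^ 2 ∂(nu k) := by
  have := integral_T hk ht (fun _ => 1) f
  simp only [one_mul] at this
  rw [← this, ← norm_sq_eq]

/-- `T t f → 0` as `t → ∞`. -/
lemma tendsto_T_atTop (hk1 : 0 < k) (f : H k) :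
    Tendsto (fun t : ℝ => T hk t f) atTop (𝓝 0) := by
  have h0 : (0 : ℝ) = ∫ x, (0 : ℝ) ∂(nu k) := by simp
  have key : Tendsto (fun t : ℝ => ∫ x, rho k t x * ‖f x‖ ^ 2 ∂(nu k)) atTop (𝓝 0) := by
    rw [h0]
    refine tendsto_integral_filter_of_dominated_convergence (fun x => ‖f x‖ ^ 2) ?_ ?_ ?_ ?_
    · exact Eventually.of_forall fun t =>
        (measurable_P (2 * k) t).aestronglyMeasurable.mul (integrable_norm_sq f).1
    · filter_upwards [eventually_ge_atTop 0] with t ht
      filter_upwards [ae_pos k] with x hx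
      have h0 : 0 ≤ rho k t x := P_nonneg (2 * k) ht hx
      rw [norm_mul, Real.norm_of_nonneg h0, norm_pow, norm_norm]
      exact mul_le_of_le_one_left (by positivity) (P_le_one (by positivity) ht hx)
    · exact integrable_norm_sq f
    · filter_upwards [ae_pos k] with x hx
      have h1 : Tendsto (fun t : ℝ => (1 + x) / (1 + x + t)) atTop (𝓝 0) := by
        apply Tendsto.div_atTop tendsto_const_nhds
        exact tendsto_atTop_add_const_left _ _ tendsto_id
      have h2 : Tendsto (fun t : ℝ => rho k t x) atTop (𝓝 0) := by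
        have := h1.rpow_const (p := 2 * k) (Or.inr (by positivity))
        rw [Real.zero_rpow (by positivity)] at this
        exact this
      simpa using h2.mul_const (‖f x‖ ^ 2)
  rw [tendsto_zero_iff_norm_tendsto_zero]
  have h3 : Tendsto (fun t : ℝ => ‖T hk t f‖ ^ 2) atTop (𝓝 0) := by
    refine key.congr' ?_
    filter_upwards [eventually_ge_atTop 0] with t ht
    exact (norm_T_sq hk ht f).symm
  have h2 := (Real.continuous_sqrt.tendsto 0).comp h3
  rw [Real.sqrt_zero] at h2
  refine h2.congr fun t => ?_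
  exact Real.sqrt_sq (norm_nonneg _)

/-- The lower bound `‖f‖ ≤ (1+t)^k ‖T(t) f‖`. -/
lemma norm_le_mul_norm_T {t : ℝ} (ht : 0 ≤ t) (f : H k) : ‖f‖ ≤ (1 + t) ^ k * ‖T hk t f‖ := by
  have hint : Integrable (fun z => rho k t z * ‖f z‖ ^ 2) (nu k) := by
    refine (integrable_norm_sq f).mono' ((measurable_P (2 * k) t).aestronglyMeasurable.mul
      (integrable_norm_sq f).1) ?_
    filter_upwards [ae_pos k] with z hz
    have h0 : 0 ≤ rho k t z := P_nonneg (2 * k) ht hz
    rw [norm_mul, Real.norm_of_nonneg h0, norm_pow, norm_norm]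
    exact mul_le_of_le_one_left (by positivity) (P_le_one (by positivity) ht hz)
  have h2 : ‖f‖ ^ 2 ≤ ((1 + t) ^ k * ‖T hk t f‖) ^ 2 := by
    rw [mul_pow, norm_T_sq hk ht, norm_sq_eq, ← integral_const_mul]
    refine integral_mono_ae (integrable_norm_sq f) (hint.const_mul _) ?_
    filter_upwards [ae_pos k] with z hz
    have h5 : 1 ≤ ((1 + t) ^ k) ^ 2 * rho k t z := by
      unfold rho P
      have e1 : ((1 + t) ^ k) ^ 2 = (1 + t) ^ (2 * k) := by
        rw [← Real.rpow_natCast, ← Real.rpow_mul (by positivity)]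
        congr 1
        push_cast
        ring
      rw [e1, ← Real.mul_rpow (by positivity) (by positivity)]
      apply Real.one_le_rpow _ (by positivity)
      rw [← mul_div_assoc, le_div_iff₀ (by positivity)]
      nlinarith
    show ‖f z‖ ^ 2 ≤ ((1 + t) ^ k) ^ 2 * (rho k t z * ‖f z‖ ^ 2)
    rw [← mul_assoc]
    exact le_mul_of_one_le_left (by positivity) h5
  exact le_of_sq_le_sq h2 (by positivity)

lemma exists_ne_zero (k : ℝ) : ∃ f : H k, f ≠ 0 := by
  have hfin : nu k (Ioc 0 1) ≠ ∞ := by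
    exact ((measure_mono Ioc_subset_Icc_self).trans_lt
      ((isCompact_Icc (a := (0 : ℝ)) (b := 1)).measure_lt_top (μ := nu k))).ne
  refine ⟨indicatorConstLp 2 (measurableSet_Ioc (a := (0:ℝ)) (b := 1)) hfin (1:ℂ), ?_⟩
  intro h
  have h1 : nu k (Ioc 0 1) ≠ 0 := by
    intro h2
    have h7 : (volume.restrict (Ioi (0:ℝ))) ≪ nu k := by
      refine withDensity_absolutelyContinuous' (measurable_wn k).coe_nnreal_ennreal.aemeasurable ?_
      filter_upwards [ae_restrict_mem measurableSet_Ioi] with x hx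
      rw [coe_wn]
      have := w_pos k x
      simp [this]
    have h8 := h7 h2
    rw [Measure.restrict_apply measurableSet_Ioc] at h8
    have h9 : Ioc (0 : ℝ) 1 ∩ Ioi 0 = Ioc 0 1 := by
      ext x
      simp only [mem_inter_iff, mem_Ioc, mem_Ioi]
      tauto
    rw [h9, Real.volume_Ioc] at h8
    norm_num at h8
  have := (norm_indicatorConstLp (p := 2) (μ := nu k) (s := Ioc (0:ℝ) 1) (hs := measurableSet_Ioc)
    (hμs := hfin) (c := (1:ℂ)) (by norm_num) (by norm_num))
  rw [h, norm_zero, norm_one, one_mul] at this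
  have h8 : 0 < ((nu k).real (Ioc 0 1)) := by
    rw [Measure.real]
    exact ENNReal.toReal_pos h1 hfin
  have h9 : 0 < ((nu k).real (Ioc 0 1)) ^ (1 / (2:ℝ≥0∞).toReal) := Real.rpow_pos_of_pos h8 _
  exact absurd this (ne_of_lt h9)

instance (k : ℝ) : TopologicalSpace.SeparableSpace (H k) := by
  have h2 : Fact ((2 : ENNReal) ≠ ⊤) := ⟨by norm_num⟩
  infer_instance

end Pool.Agent.Lib.MP_8a8b2f_an.K
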