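import Pool.Agent.Lib.MP_8a8b2f_an.K.Ops

/-!
# MP_8a8b2f_an: the quadratic forms of the generator and the lower resolvent bound
-/

set_option autoImplicit false

open MeasureTheory Set Filter Topology
open scoped ENNReal NNReal InnerProductSpace

noncomputable section

namespace Pool.Agent.Lib.MP_8a8b2f_an.K

/-- The function `1/(1+x)`, truncated to be bounded on all of `ℝ`. -/
def q (x : ℝ) : ℝ := 1 / (1 + max x 0)

lemma q_nonneg (x : ℝ) : 0 ≤ q x := by unfold q; positivity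

lemma q_le (x : ℝ) : q x ≤ 1 := by
  unfold q
  rw [div_le_iff₀ (by positivity)]
  have : 0 ≤ max x 0 := le_max_right _ _
  linarith

lemma q_eq {x : ℝ} (hx : 0 < x) : q x = 1 / (1 + x) := by
  unfold q; rw [max_eq_left hx.le]

lemma measurable_q : Measurable q := by unfold q; fun_prop

variable {k : ℝ} (hk : 0 ≤ k)

lemma memLp_q (f : H k) : MemLp (fun x => (q x : ℂ) * f x) 2 (nu k) := by
  refine (Lp.memLp f).of_le_mul (c := 1) ?_ ?_
  · exact (Complex.measurable_ofReal.comp measurable_q).aestronglyMeasurable.mul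
      (Lp.memLp f).1
  · refine Eventually.of_forall fun x => ?_
    rw [norm_mul, Complex.norm_real, Real.norm_of_nonneg (q_nonneg x)]
    exact mul_le_mul_of_nonneg_right (q_le x) (norm_nonneg _)

/-- Multiplication by `q`. -/
def Q (k : ℝ) : H k →L[ℂ] H k :=
  LinearMap.mkContinuous
    { toFun := fun f => (memLp_q f).toLp _
      map_add' := by
        intro f g
        rw [← MemLp.toLp_add]
        refine (MemLp.toLp_eq_toLp_iff _ _).2 ?_
        filter_upwards [Lp.coeFn_add f g] with x hx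
        rw [hx]
        simp only [Pi.add_apply]
        ring
      map_smul' := by
        intro c f
        rw [RingHom.id_apply, ← MemLp.toLp_const_smul]
        refine (MemLp.toLp_eq_toLp_iff _ _).2 ?_
        filter_upwards [Lp.coeFn_smul c f] with x hx
        rw [hx]
        simp only [Pi.smul_apply, smul_eq_mul]
        ring } 1 (by
      intro f
      simp only [LinearMap.coe_mk, AddHom.coe_mk]
      refine Lp.norm_le_mul_norm_of_ae_le_mul ?_
      filter_upwards [MemLp.coeFn_toLp (memLp_q f)] with x hx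
      rw [hx, norm_mul, Complex.norm_real, Real.norm_of_nonneg (q_nonneg x)]
      exact mul_le_mul_of_nonneg_right (q_le x) (norm_nonneg _))

lemma coeFn_Q (f : H k) : Q k f =ᵐ[nu k] fun x => (q x : ℂ) * f x :=
  MemLp.coeFn_toLp (memLp_q f)

lemma re_inner_Q (f : H k) : (⟪Q k f, f⟫_ℂ).re = ∫ x, q x * ‖f x‖ ^ 2 ∂(nu k) := by
  rw [L2.inner_def]
  have h : ∫ x, ⟪Q k f x, f x⟫_ℂ ∂(nu k) = ∫ x, ((q x * ‖f x‖ ^ 2 : ℝ) : ℂ) ∂(nu k) := by
    apply integral_congr_ae
    filter_upwards [coeFn_Q f] with x hx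
    rw [hx]
    rw [← smul_eq_mul, inner_smul_left, inner_self_eq_norm_sq_to_K]
    push_cast
    simp
  rw [h, integral_complex_ofReal]
  simp

lemma Q_symm (f g : H k) : ⟪Q k f, g⟫_ℂ = ⟪f, Q k g⟫_ℂ := by
  rw [L2.inner_def, L2.inner_def]
  apply integral_congr_ae
  filter_upwards [coeFn_Q f, coeFn_Q g] with x hx hy
  rw [hx, hy]
  rw [← smul_eq_mul, ← smul_eq_mul, inner_smul_left, inner_smul_right]
  simp

lemma norm_Q_sq (f : H k) : ‖Q k f‖ ^ 2 = ∫ x, (q x) ^ 2 * ‖f x‖ ^ 2 ∂(nu k) := by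
  rw [norm_sq_eq]
  apply integral_congr_ae
  filter_upwards [coeFn_Q f] with x hx
  rw [hx, norm_mul, Complex.norm_real, Real.norm_of_nonneg (q_nonneg x)]
  ring

/-- Differentiating `⟨B S_h x, S_h x⟩` at `h = 0`, in any Hilbert space. -/
lemma tendsto_quot {G : Type*} [NormedAddCommGroup G] [InnerProductSpace ℂ G] (S : ℝ → G →L[ℂ] G)
    (B : G →L[ℂ] G) (hB : ∀ f g, ⟪B f, g⟫_ℂ = ⟪f, B g⟫_ℂ) {x y : G}
    (hxy : Tendsto (fun h : ℝ => ((h : ℂ)⁻¹) • (S h x - x)) (𝓝[>] 0) (𝓝 y)) :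
    Tendsto (fun h : ℝ => h⁻¹ * ((⟪B (S h x), S h x⟫_ℂ).re - (⟪B x, x⟫_ℂ).re)) (𝓝[>] 0)
      (𝓝 (2 * (⟪B x, y⟫_ℂ).re)) := by
  have hh : Tendsto (fun h : ℝ => (h : ℂ)) (𝓝[>] 0) (𝓝 0) := by
    have : Tendsto (fun h : ℝ => (h : ℂ)) (𝓝 0) (𝓝 ((0:ℝ):ℂ)) :=
      (Complex.continuous_ofReal.tendsto 0)
    simpa using this.mono_left nhdsWithin_le_nhds
  have h0 : Tendsto (fun h : ℝ => S h x) (𝓝[>] 0) (𝓝 x) := by
    have h1 := hh.smul hxy
    rw [zero_smul] at h1
    have h2 := h1.add_const x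
    rw [zero_add] at h2
    refine h2.congr' ?_
    filter_upwards [self_mem_nhdsWithin] with h hpos
    have hne : (h : ℂ) ≠ 0 := by
      have : (h:ℝ) ≠ 0 := ne_of_gt hpos
      exact_mod_cast this
    rw [smul_smul, mul_inv_cancel₀ hne, one_smul, sub_add_cancel]
  have h1 : Tendsto (fun h : ℝ => (⟪B (((h : ℂ)⁻¹) • (S h x - x)), S h x⟫_ℂ).re
      + (⟪B x, ((h : ℂ)⁻¹) • (S h x - x)⟫_ℂ).re) (𝓝[>] 0)
      (𝓝 ((⟪B y, x⟫_ℂ).re + (⟪B x, y⟫_ℂ).re)) := by
    refine Tendsto.add ?_ ?_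
    · exact (Complex.continuous_re.tendsto _).comp
        (((B.continuous.tendsto y).comp hxy).inner h0)
    · exact (Complex.continuous_re.tendsto _).comp (tendsto_const_nhds.inner hxy)
  have h2 : (⟪B y, x⟫_ℂ).re + (⟪B x, y⟫_ℂ).re = 2 * (⟪B x, y⟫_ℂ).re := by
    have : (⟪B y, x⟫_ℂ).re = (⟪B x, y⟫_ℂ).re := by
      rw [hB y x, ← inner_conj_symm, Complex.conj_re]
    rw [this]; ring
  rw [h2] at h1
  refine h1.congr' ?_
  filter_upwards [self_mem_nhdsWithin] with h hpos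
  have hinv : ((h : ℂ)⁻¹) = ((h⁻¹ : ℝ) : ℂ) := by push_cast; rfl
  rw [hinv, map_smul, inner_smul_left, inner_smul_right, Complex.conj_ofReal,
    Complex.re_ofReal_mul, Complex.re_ofReal_mul, map_sub, inner_sub_left, inner_sub_right]
  simp only [Complex.sub_re]
  ring

/-- Dominated convergence for the weight quotients. -/
lemma tendsto_weight (f : H k) (φ : ℝ → ℝ → ℝ) (ψ : ℝ → ℝ) (C : ℝ)
    (hm : ∀ h, Measurable (φ h))
    (hb : ∀ h, 0 < h → ∀ x, 0 < x → |φ h x| ≤ C)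
    (hl : ∀ x, 0 < x → Tendsto (fun h => φ h x) (𝓝[>] 0) (𝓝 (ψ x))) :
    Tendsto (fun h : ℝ => ∫ x, φ h x * ‖f x‖ ^ 2 ∂(nu k)) (𝓝[>] 0)
      (𝓝 (∫ x, ψ x * ‖f x‖ ^ 2 ∂(nu k))) := by
  refine tendsto_integral_filter_of_dominated_convergence (fun x => C * ‖f x‖ ^ 2) ?_ ?_ ?_ ?_
  · refine Eventually.of_forall fun h => ?_
    exact (hm h).aestronglyMeasurable.mul (integrable_norm_sq f).1
  · filter_upwards [self_mem_nhdsWithin] with h hpos
    filter_upwards [ae_pos k] with x hx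
    rw [norm_mul, Real.norm_eq_abs, norm_pow, norm_norm]
    exact mul_le_mul_of_nonneg_right (hb h hpos x hx) (by positivity)
  · exact (integrable_norm_sq f).const_mul C
  · filter_upwards [ae_pos k] with x hx
    exact (hl x hx).mul_const _

/-- `1 - P_b(h, z) ≤ b h/(1+z)` -/
lemma one_sub_P_le {b h z : ℝ} (hb : 0 ≤ b) (hh : 0 < h) (hz : 0 < z) :
    1 - P b h z ≤ b * (h / (1 + z)) := by
  have hs : 0 ≤ h / (1 + z) := by positivity
  have e1 : (1 + z) / (1 + z + h) = (1 + h / (1 + z))⁻¹ := by field_simp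
  have e2 : P b h z = (1 + h / (1 + z)) ^ (-b) := by
    unfold P
    rw [e1, Real.inv_rpow (by positivity), ← Real.rpow_neg (by positivity)]
  have h3 : Real.exp (-b * (h / (1 + z))) ≤ (1 + h / (1 + z)) ^ (-b) := by
    rw [Real.rpow_def_of_pos (by positivity)]
    apply Real.exp_le_exp.2
    have h4 : Real.log (1 + h / (1 + z)) ≤ h / (1 + z) := by
      have := Real.log_le_sub_one_of_pos (show 0 < 1 + h / (1 + z) by positivity)
      linarith
    nlinarith
  have h5 := Real.add_one_le_exp (-b * (h / (1 + z)))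
  rw [e2]
  linarith

/-- the difference quotient of `P_b` -/
lemma abs_quot_P_le {b h z : ℝ} (hb : 0 ≤ b) (hh : 0 < h) (hz : 0 < z) :
    |h⁻¹ * (P b h z - 1)| ≤ b := by
  have h1 := one_sub_P_le hb hh hz
  have h2 := P_le_one hb hh.le hz
  have h3 : h⁻¹ * (P b h z - 1) = -(h⁻¹ * (1 - P b h z)) := by ring
  rw [h3, abs_neg, abs_of_nonneg (mul_nonneg (by positivity) (by linarith))]
  have h4 : h⁻¹ * (1 - P b h z) ≤ h⁻¹ * (b * (h / (1 + z))) :=
    mul_le_mul_of_nonneg_left h1 (by positivity)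
  have h5 : h⁻¹ * (b * (h / (1 + z))) = b * (1 / (1 + z)) := by field_simp
  have h6 : 1 / (1 + z) ≤ 1 := by
    rw [div_le_iff₀ (by positivity)]
    linarith
  rw [h5] at h4
  nlinarith

lemma tendsto_quot_P (b : ℝ) {z : ℝ} (hz : 0 < z) :
    Tendsto (fun h : ℝ => h⁻¹ * (P b h z - 1)) (𝓝[>] 0) (𝓝 (-(b * q z))) := by
  have hd : HasDerivAt (fun h : ℝ => P b h z) (-(b * q z)) 0 := by
    have h1 : HasDerivAt (fun h : ℝ => (1 + z) / (1 + z + h)) (-(1 / (1 + z))) 0 := by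
      have h2 : HasDerivAt (fun h : ℝ => 1 + z + h) 1 0 := by
        simpa using (hasDerivAt_id (0 : ℝ)).const_add (1 + z)
      have h3 := (hasDerivAt_const (0 : ℝ) (1 + z)).div h2 (by positivity)
      have e3 : -(1 / (1 + z)) = (0 * (1 + z + 0) - (1 + z) * 1) / (1 + z + 0) ^ 2 := by
        have : 1 + z ≠ 0 := by positivity
        rw [add_zero]
        field_simp
        ring
      rw [e3]
      exact h3
    have h4 := h1.rpow_const (p := b) (Or.inl (by
      have : (0 : ℝ) < (1 + z) / (1 + z + 0) := by positivity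
      exact this.ne'))
    unfold P
    convert h4 using 1
    rw [q_eq hz, add_zero, div_self (by positivity), Real.one_rpow]
    ring
  have h5 := hd.tendsto_slope_zero_right
  have h6 : P b 0 z = 1 := by
    unfold P
    rw [add_zero, div_self (by positivity), Real.one_rpow]
  refine h5.congr fun h => ?_
  rw [zero_add, h6, smul_eq_mul]

/-- First form: `2 Re ⟨x, y⟩ = -2k ⟨Q x, x⟩`. -/
lemma form_one {x y : H k}
    (hxy : Tendsto (fun h : ℝ => ((h : ℂ)⁻¹) • (T hk h x - x)) (𝓝[>] 0) (𝓝 y)) :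
    2 * (⟪x, y⟫_ℂ).re = -(2 * k * (⟪Q k x, x⟫_ℂ).re) := by
  have h1 := tendsto_quot (T hk) (ContinuousLinearMap.id ℂ (H k)) (fun f g => rfl) hxy
  simp only [ContinuousLinearMap.id_apply] at h1
  have h2 := tendsto_weight x (fun h z => h⁻¹ * (rho k h z - 1)) (fun z => - (2 * k * q z)) (2 * k)
    (fun h => by
      have := measurable_P (2 * k) h
      unfold rho
      fun_prop) (fun h hpos z hz => abs_quot_P_le (by positivity) hpos hz)
      (fun z hz => tendsto_quot_P (2 * k) hz)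
  have h3 : (fun h : ℝ => h⁻¹ * ((⟪T hk h x, T hk h x⟫_ℂ).re - (⟪x, x⟫_ℂ).re)) =ᶠ[𝓝[>] 0]
      (fun h : ℝ => ∫ z, (h⁻¹ * (rho k h z - 1)) * ‖x z‖ ^ 2 ∂(nu k)) := by
    filter_upwards [self_mem_nhdsWithin] with h hpos
    have hpos' : (0:ℝ) ≤ h := le_of_lt hpos
    have e1 : (⟪T hk h x, T hk h x⟫_ℂ).re = ∫ z, rho k h z * ‖x z‖ ^ 2 ∂(nu k) := by
      have := integral_T hk hpos' (fun _ => 1) x
      simp only [one_mul] at this
      rw [← this, ← norm_sq_eq]
      exact inner_self_eq_norm_sq (𝕜 := ℂ) _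
    have e2 : (⟪x, x⟫_ℂ).re = ∫ z, ‖x z‖ ^ 2 ∂(nu k) := by
      rw [← norm_sq_eq]
      exact inner_self_eq_norm_sq (𝕜 := ℂ) _
    have hint : Integrable (fun z => rho k h z * ‖x z‖ ^ 2) (nu k) := by
      refine (integrable_norm_sq x).mono' ((measurable_P (2 * k) h).aestronglyMeasurable.mul
        (integrable_norm_sq x).1) ?_
      filter_upwards [ae_pos k] with z hz
      have h0 : 0 ≤ rho k h z := P_nonneg (2 * k) hpos' hz
      rw [norm_mul, Real.norm_of_nonneg h0, norm_pow, norm_norm]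
      exact mul_le_of_le_one_left (by positivity) (P_le_one (by positivity) hpos' hz)
    rw [e1, e2, ← integral_sub hint (integrable_norm_sq x), ← integral_const_mul]
    congr 1
    ext z
    ring
  have h4 := tendsto_nhds_unique (h1.congr' h3) h2
  rw [h4, re_inner_Q, ← integral_const_mul, ← integral_neg]
  congr 1
  ext z
  ring

lemma q_add_mul_rho {h z : ℝ} (hh : 0 < h) (hz : 0 < z) :
    q (z + h) * rho k h z = q z * P (2 * k + 1) h z := by
  rw [q_eq hz, q_eq (by linarith : 0 < z + h)]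
  unfold rho P
  rw [Real.rpow_add (by positivity), Real.rpow_one]
  have e : 1 + (z + h) = 1 + z + h := by ring
  rw [e]
  field_simp

/-- Second form: `2 Re ⟨Q x, y⟩ = -(2k+1) ‖Q x‖²`. -/
lemma form_two {x y : H k}
    (hxy : Tendsto (fun h : ℝ => ((h : ℂ)⁻¹) • (T hk h x - x)) (𝓝[>] 0) (𝓝 y)) :
    2 * (⟪Q k x, y⟫_ℂ).re = -((2 * k + 1) * ‖Q k x‖ ^ 2) := by
  have h1 := tendsto_quot (T hk) (Q k) Q_symm hxy
  have h2 := tendsto_weight x (fun h z => h⁻¹ * (q (z + h) * rho k h z - q z))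
    (fun z => - ((2 * k + 1) * (q z) ^ 2)) (2 * k + 1)
    (fun h => by
      have := measurable_P (2 * k) h
      have := measurable_q
      unfold rho
      fun_prop) ?_ ?_
  · have h3 : (fun h : ℝ => h⁻¹ * ((⟪Q k (T hk h x), T hk h x⟫_ℂ).re - (⟪Q k x, x⟫_ℂ).re))
        =ᶠ[𝓝[>] 0]
        (fun h : ℝ => ∫ z, (h⁻¹ * (q (z + h) * rho k h z - q z)) * ‖x z‖ ^ 2 ∂(nu k)) := by
      filter_upwards [self_mem_nhdsWithin] with h hpos
      have hpos' : (0:ℝ) ≤ h := le_of_lt hpos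
      have e1 : (⟪Q k (T hk h x), T hk h x⟫_ℂ).re
          = ∫ z, q (z + h) * rho k h z * ‖x z‖ ^ 2 ∂(nu k) := by
        rw [re_inner_Q, integral_T hk hpos' q x]
      have e2 : (⟪Q k x, x⟫_ℂ).re = ∫ z, q z * ‖x z‖ ^ 2 ∂(nu k) := re_inner_Q x
      have hint : Integrable (fun z => q (z + h) * rho k h z * ‖x z‖ ^ 2) (nu k) := by
        refine (integrable_norm_sq x).mono'
          (((measurable_q.comp (measurable_id.add_const h)).mul
            (measurable_P (2 * k) h)).aestronglyMeasurable.mul (integrable_norm_sq x).1) ?_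
        filter_upwards [ae_pos k] with z hz
        have h0 : 0 ≤ rho k h z := P_nonneg (2 * k) hpos' hz
        rw [norm_mul, norm_mul, Real.norm_of_nonneg h0,
          Real.norm_of_nonneg (q_nonneg _), norm_pow, norm_norm]
        apply mul_le_of_le_one_left (by positivity)
        calc q (z + h) * rho k h z ≤ 1 * 1 :=
              mul_le_mul (q_le _) (P_le_one (by positivity) hpos' hz) h0 (by norm_num)
          _ = 1 := by norm_num
      have hint2 : Integrable (fun z => q z * ‖x z‖ ^ 2) (nu k) := by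
        refine (integrable_norm_sq x).mono'
          (measurable_q.aestronglyMeasurable.mul (integrable_norm_sq x).1) ?_
        refine Eventually.of_forall fun z => ?_
        rw [norm_mul, Real.norm_of_nonneg (q_nonneg _), norm_pow, norm_norm]
        exact mul_le_of_le_one_left (by positivity) (q_le _)
      rw [e1, e2, ← integral_sub hint hint2, ← integral_const_mul]
      congr 1
      ext z
      ring
    have h4 := tendsto_nhds_unique (h1.congr' h3) h2
    rw [h4, norm_Q_sq, ← integral_const_mul, ← integral_neg]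
    congr 1
    ext z
    ring
  · intro h hpos z hz
    have e : h⁻¹ * (q (z + h) * rho k h z - q z) = q z * (h⁻¹ * (P (2 * k + 1) h z - 1)) := by
      rw [q_add_mul_rho hpos hz]
      ring
    rw [e, abs_mul, abs_of_nonneg (q_nonneg z)]
    have h5 := abs_quot_P_le (b := 2 * k + 1) (by positivity) hpos hz
    have h6 := q_le z
    have h7 := q_nonneg z
    have h8 := abs_nonneg (h⁻¹ * (P (2 * k + 1) h z - 1))
    nlinarith
  · intro z hz
    have h3 := (tendsto_quot_P (2 * k + 1) hz).const_mul (q z)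
    have e2 : q z * -((2 * k + 1) * q z) = -((2 * k + 1) * (q z) ^ 2) := by ring
    rw [e2] at h3
    refine h3.congr' ?_
    filter_upwards [self_mem_nhdsWithin] with h hpos
    have hpos' : (0:ℝ) < h := hpos
    rw [q_add_mul_rho hpos' hz]
    ring

/-- The lower resolvent bound: constant `m` with `m² ≤ 1 - 4k²`. -/
lemma resolvent_bound {x y : H k}
    (hxy : Tendsto (fun h : ℝ => ((h : ℂ)⁻¹) • (T hk h x - x)) (𝓝[>] 0) (𝓝 y))
    {m : ℝ} (hm : m ^ 2 ≤ 1 - 4 * k ^ 2)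
    {μ : ℂ} (hμ : μ.re < 0) : m * |μ.re| * ‖x‖ ≤ ‖μ • x - y‖ := by
  set s : ℝ := -μ.re with hs
  have hs0 : 0 < s := by linarith
  set z : H k := y - (μ.im * Complex.I) • x with hz
  have e1 : μ • x - y = -((s : ℂ) • x + z) := by
    have : μ = -(s:ℂ) + μ.im * Complex.I := by
      apply Complex.ext <;> simp [hs]
    rw [hz]
    nth_rw 1 [this]
    rw [add_smul, neg_smul]
    abel
  have hre : (⟪x, z⟫_ℂ).re = (⟪x, y⟫_ℂ).re := by
    rw [hz, inner_sub_right, inner_smul_right, inner_self_eq_norm_sq_to_K]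
    simp [← Complex.ofReal_pow]
  have hQx : (⟪Q k x, x⟫_ℂ).im = 0 := by
    have h1 : (starRingEnd ℂ) ⟪Q k x, x⟫_ℂ = ⟪Q k x, x⟫_ℂ := by
      rw [inner_conj_symm, Q_symm]
    have h2 := congrArg Complex.im h1
    rw [Complex.conj_im] at h2
    linarith
  have hreQ : (⟪Q k x, z⟫_ℂ).re = (⟪Q k x, y⟫_ℂ).re := by
    rw [hz, inner_sub_right, inner_smul_right]
    simp [hQx]
  have f1 := form_one hk hxy
  have f2 := form_two hk hxy
  have cs1 : (⟪Q k x, x⟫_ℂ).re ≤ ‖Q k x‖ * ‖x‖ :=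
    (Complex.re_le_norm _).trans (norm_inner_le_norm _ _)
  have cs2 : -(⟪Q k x, z⟫_ℂ).re ≤ ‖Q k x‖ * ‖z‖ := by
    refine le_trans ?_ (norm_inner_le_norm (𝕜 := ℂ) _ _)
    have := Complex.abs_re_le_norm (⟪Q k x, z⟫_ℂ)
    exact (neg_le_abs _).trans this
  have hn : ‖(s : ℂ) • x + z‖ ^ 2 = s ^ 2 * ‖x‖ ^ 2 + 2 * s * (⟪x, z⟫_ℂ).re + ‖z‖ ^ 2 := by
    rw [norm_add_sq (𝕜 := ℂ), norm_smul, inner_smul_left, Complex.norm_real,
      Real.norm_of_nonneg hs0.le, Complex.conj_ofReal]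
    have : RCLike.re ((s : ℂ) * ⟪x, z⟫_ℂ) = s * (⟪x, z⟫_ℂ).re := Complex.re_ofReal_mul _ _
    rw [this]; ring
  have hX := norm_nonneg x
  have hZ := norm_nonneg z
  have hQ := norm_nonneg (Q k x)
  have hB : 1 / 2 * ‖Q k x‖ ≤ ‖z‖ := by
    rcases eq_or_lt_of_le hQ with h | h
    · rw [← h]; simp
    · have h9 : (k + 1 / 2) * ‖Q k x‖ ^ 2 ≤ ‖Q k x‖ * ‖z‖ := by
        rw [hreQ] at cs2; linarith
      nlinarith
  have habs : |μ.re| = s := by rw [abs_of_neg hμ]
  rw [habs, e1, norm_neg]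
  have main : (m * s * ‖x‖) ^ 2 ≤ ‖(s : ℂ) • x + z‖ ^ 2 := by
    rw [hn, hre]
    have h1 : 2 * s * (⟪x, y⟫_ℂ).re ≥ - (2 * k * s * (‖Q k x‖ * ‖x‖)) := by
      have : 2 * s * (⟪x, y⟫_ℂ).re = s * (2 * (⟪x, y⟫_ℂ).re) := by ring
      rw [this, f1]
      have := mul_le_mul_of_nonneg_left cs1 (by positivity : 0 ≤ 2 * k * s)
      linarith
    have h2 : (1 / 2 * ‖Q k x‖) ^ 2 ≤ ‖z‖ ^ 2 := pow_le_pow_left₀ (by positivity) hB 2
    have h3 : (m * s * ‖x‖) ^ 2 ≤ (1 - 4 * k ^ 2) * (s * ‖x‖) ^ 2 := by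
      rw [mul_assoc, mul_pow]
      exact mul_le_mul_of_nonneg_right hm (by positivity)
    nlinarith [sq_nonneg (1 / 2 * ‖Q k x‖ - 2 * k * (s * ‖x‖))]
  exact le_of_sq_le_sq main (norm_nonneg _)

end Pool.Agent.Lib.MP_8a8b2f_an.K
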