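import Pool.Agent.Lib.MP_8a8b2f_an.K.Defs
import Pool.Agent.Lib.MP_8a8b2f_an.K.Main

/-!
# MP_8a8b2f_an: condition (i) with `m = 1` holds exactly for semigroups of isometries
-/

set_option autoImplicit false

open MeasureTheory Set Filter Topology
open scoped ENNReal NNReal InnerProductSpace

noncomputable section

namespace Pool.Agent.Lib.MP_8a8b2f_an.K

section

variable {H : Type} [NormedAddCommGroup H] [InnerProductSpace ℂ H] {T : ℝ → H →L[ℂ] H}

lemma ConditionI.mono {m m' : ℝ} (hmm : m ≤ m') (h : ConditionI T m') : ConditionI T m := by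
  intro x y hxy μ hμ
  refine le_trans ?_ (h x y hxy μ hμ)
  gcongr

lemma norm_apply_le (hT : IsContractionSemigroup T) {t : ℝ} (ht : 0 ≤ t) (x : H) :
    ‖T t x‖ ≤ ‖x‖ := by
  simpa using (T t).le_of_opNorm_le (hT.contraction t ht) x

lemma generator_invariant (hT : IsContractionSemigroup T) {x y : H} (h : GeneratorMaps T x y)
    {t : ℝ} (ht : 0 ≤ t) : GeneratorMaps T (T t x) (T t y) := by
  have h1 := ((T t).continuous.tendsto y).comp h
  refine h1.congr' ?_
  filter_upwards [self_mem_nhdsWithin] with r hr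
  have hr' : (0 : ℝ) ≤ r := le_of_lt hr
  simp only [Function.comp_apply]
  rw [map_smul, map_sub]
  congr 2
  have e1 := congrArg (fun S : H →L[ℂ] H => S x) (hT.add t r ht hr')
  have e2 := congrArg (fun S : H →L[ℂ] H => S x) (hT.add r t hr' ht)
  simp only [ContinuousLinearMap.comp_apply] at e1 e2
  rw [← e1, ← e2, add_comm]

lemma hasDeriv_norm_sq (hT : IsContractionSemigroup T) {x y : H} (h : GeneratorMaps T x y)
    {t : ℝ} (ht : 0 ≤ t) :
    HasDerivWithinAt (fun s : ℝ => ‖T s x‖ ^ 2) (2 * (⟪T t x, T t y⟫_ℂ).re) (Ici t) t := by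
  rw [← hasDerivWithinAt_Ioi_iff_Ici, hasDerivWithinAt_iff_tendsto_slope' (by simp)]
  have h1 := tendsto_quot T (ContinuousLinearMap.id ℂ H) (fun f g => rfl)
    (generator_invariant hT h ht)
  simp only [ContinuousLinearMap.id_apply] at h1
  have h2 : Tendsto (fun s : ℝ => s - t) (𝓝[>] t) (𝓝[>] 0) := by
    apply tendsto_nhdsWithin_of_tendsto_nhds_of_eventually_within
    · have : Tendsto (fun s : ℝ => s - t) (𝓝 t) (𝓝 (t - t)) := by
        apply Continuous.tendsto; fun_prop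
      rw [sub_self] at this
      exact this.mono_left nhdsWithin_le_nhds
    · filter_upwards [self_mem_nhdsWithin] with s hs
      have : t < s := hs
      show 0 < s - t
      linarith
  refine (h1.comp h2).congr' ?_
  filter_upwards [self_mem_nhdsWithin] with s hs
  have hs' : t < s := hs
  simp only [Function.comp_apply, slope_def_field]
  have e1 := congrArg (fun S : H →L[ℂ] H => S x) (hT.add (s - t) t (by linarith) ht)
  simp only [ContinuousLinearMap.comp_apply, sub_add_cancel] at e1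
  have e3 : ∀ v : H, (⟪v, v⟫_ℂ).re = ‖v‖ ^ 2 := fun v => inner_self_eq_norm_sq (𝕜 := ℂ) v
  rw [← e1, e3, e3]
  rw [div_eq_inv_mul]

/-- the domain of the generator is dense -/
lemma exists_generator_near [CompleteSpace H] (hT : IsContractionSemigroup T) (x : H) {ε : ℝ}
    (hε : 0 < ε) : ∃ x' y' : H, GeneratorMaps T x' y' ∧ ‖x - x'‖ < ε := by
  obtain ⟨F, hF⟩ : ∃ F : ℝ → H, F = fun s => T (max s 0) x := ⟨_, rfl⟩
  have hFc : Continuous F := by
    rw [hF]
    exact (hT.continuousOn x).comp_continuous (by fun_prop) (fun s => le_max_right s 0)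
  have hF0 : F 0 = x := by
    rw [hF]
    simp [hT.zero]
  obtain ⟨Φ, hΦ⟩ : ∃ Φ : ℝ → H, Φ = fun u => ∫ s in (0:ℝ)..u, F s := ⟨_, rfl⟩
  have hΦ0 : Φ 0 = 0 := by rw [hΦ]; simp
  have hd : ∀ u : ℝ, HasDerivAt Φ (F u) u := by
    intro u
    rw [hΦ]
    exact intervalIntegral.integral_hasDerivAt_right (hFc.intervalIntegrable _ _)
      (hFc.stronglyMeasurableAtFilter _ _) hFc.continuousAt
  -- the semigroup acts by translation
  have hTr : ∀ r h : ℝ, 0 ≤ r → 0 ≤ h → T r (Φ h) = Φ (r + h) - Φ r := by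
    intro r h hr hh
    have e1 : T r (Φ h) = ∫ s in (0:ℝ)..h, T r (F s) := by
      rw [hΦ]
      exact ((T r).intervalIntegral_comp_comm (hFc.intervalIntegrable _ _)).symm
    have e2 : ∫ s in (0:ℝ)..h, T r (F s) = ∫ s in (0:ℝ)..h, F (r + s) := by
      apply intervalIntegral.integral_congr
      intro s hs
      rw [uIcc_of_le hh] at hs
      have hs0 : 0 ≤ s := hs.1
      have e3 := congrArg (fun S : H →L[ℂ] H => S x) (hT.add r s hr hs0)
      simp only [ContinuousLinearMap.comp_apply] at e3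
      rw [hF]
      simp only
      rw [max_eq_left hs0, max_eq_left (by linarith), e3]
    have e3 : ∫ s in (0:ℝ)..h, F (r + s) = ∫ s in r..(r + h), F s := by
      have := intervalIntegral.integral_comp_add_left (a := 0) (b := h) F r
      rw [this, add_zero]
    rw [e1, e2, e3, hΦ]
    rw [intervalIntegral.integral_interval_sub_left (hFc.intervalIntegrable _ _)
      (hFc.intervalIntegrable _ _)]
  -- the approximation
  have hlim : Tendsto (fun h : ℝ => h⁻¹ • (Φ h)) (𝓝[>] 0) (𝓝 x) := by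
    have h1 := (hd 0).tendsto_slope_zero_right
    rw [hF0] at h1
    refine h1.congr fun h => ?_
    rw [zero_add, hΦ0, sub_zero]
  have hev := (Metric.tendsto_nhds.1 hlim) ε hε
  obtain ⟨h, hh1, hh2⟩ := (hev.and self_mem_nhdsWithin).exists
  have hpos : (0 : ℝ) < h := hh2
  refine ⟨h⁻¹ • Φ h, h⁻¹ • (F h - F 0), ?_, ?_⟩
  · unfold GeneratorMaps
    have hg : HasDerivAt (fun r : ℝ => Φ (r + h) - Φ r) (F h - F 0) 0 := by
      have h3 : HasDerivAt (fun r : ℝ => Φ (r + h)) (F h) 0 := by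
        have := (hd (0 + h)).comp_add_const 0 h
        simpa using this
      exact h3.sub (hd 0)
    have h4 := (hg.tendsto_slope_zero_right).const_smul (h⁻¹)
    refine h4.congr' ?_
    filter_upwards [self_mem_nhdsWithin] with r hr
    have hr' : (0 : ℝ) ≤ r := le_of_lt hr
    have e5 : ((r : ℂ)⁻¹) = ((r⁻¹ : ℝ) : ℂ) := by push_cast; rfl
    have e6 : T r (h⁻¹ • Φ h) = h⁻¹ • (Φ (r + h) - Φ r) := by
      rw [← hTr r h hr' hpos.le]
      exact (T r).map_smul_of_tower h⁻¹ (Φ h)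
    rw [e5, Complex.coe_smul, e6, ← smul_sub, smul_comm]
    rw [zero_add, hΦ0, zero_add, sub_zero]
  · rw [dist_eq_norm] at hh1
    rw [norm_sub_rev]
    exact hh1

/-- condition (i) with `m ≥ 1` gives `Re ⟨x, A x⟩ ≥ 0` -/
lemma re_nonneg_of_conditionI {m : ℝ} (hm : 1 ≤ m) (hc : ConditionI T m) {x y : H}
    (h : GeneratorMaps T x y) : 0 ≤ (⟪x, y⟫_ℂ).re := by
  have key : ∀ s : ℝ, 0 < s → 0 ≤ 2 * s * (⟪x, y⟫_ℂ).re + ‖y‖ ^ 2 := by
    intro s hs
    have h1 := hc x y h (-(s : ℂ)) (by simpa using hs)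
    have h2 : ‖(-(s : ℂ)) • x - y‖ = ‖(s : ℂ) • x + y‖ := by
      rw [neg_smul, ← norm_neg]
      congr 1
      abel
    rw [h2, Complex.neg_re, Complex.ofReal_re, abs_neg, abs_of_pos hs] at h1
    have h3 : s * ‖x‖ ≤ ‖(s : ℂ) • x + y‖ := by
      refine le_trans ?_ h1
      have : 0 ≤ s * ‖x‖ := by positivity
      nlinarith
    have h4 : ‖(s : ℂ) • x + y‖ ^ 2 = s ^ 2 * ‖x‖ ^ 2 + 2 * s * (⟪x, y⟫_ℂ).re + ‖y‖ ^ 2 := by
      rw [norm_add_sq (𝕜 := ℂ), norm_smul, inner_smul_left, Complex.norm_real,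
        Real.norm_of_nonneg hs.le, Complex.conj_ofReal]
      have : RCLike.re ((s : ℂ) * ⟪x, y⟫_ℂ) = s * (⟪x, y⟫_ℂ).re := Complex.re_ofReal_mul _ _
      rw [this]; ring
    have h5 := pow_le_pow_left₀ (by positivity) h3 2
    rw [h4, mul_pow] at h5
    linarith
  by_contra hneg
  push Not at hneg
  have h6 := key ((‖y‖ ^ 2 + 1) / (-(2 * (⟪x, y⟫_ℂ).re))) (by
    apply div_pos (by positivity)
    linarith)
  have h7 : 2 * ((‖y‖ ^ 2 + 1) / (-(2 * (⟪x, y⟫_ℂ).re))) * (⟪x, y⟫_ℂ).re = -(‖y‖ ^ 2 + 1) := by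
    have : (⟪x, y⟫_ℂ).re ≠ 0 := hneg.ne
    field_simp
  rw [h7] at h6
  linarith

/-- **Condition (i) with `m ≥ 1` forces isometries.** -/
theorem norm_eq_of_conditionI [CompleteSpace H] (hT : IsContractionSemigroup T) {m : ℝ}
    (hm : 1 ≤ m) (hc : ConditionI T m) {t : ℝ} (ht : 0 ≤ t) (x : H) : ‖T t x‖ = ‖x‖ := by
  refine le_antisymm (norm_apply_le hT ht x) ?_
  -- on the domain
  have hdom : ∀ x' y' : H, GeneratorMaps T x' y' → ‖x'‖ ≤ ‖T t x'‖ := by
    intro x' y' h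
    have hcont : ContinuousOn (fun s : ℝ => ‖T s x'‖ ^ 2) (Icc 0 t) :=
      ((hT.continuousOn x').mono Icc_subset_Ici_self).norm.pow 2
    have h1 := image_le_of_deriv_right_le_deriv_boundary (f := fun _ : ℝ => ‖x'‖ ^ 2)
      (f' := fun _ => 0) (a := 0) (b := t) (B := fun s : ℝ => ‖T s x'‖ ^ 2)
      (B' := fun s => 2 * (⟪T s x', T s y'⟫_ℂ).re) continuousOn_const
      (fun s _ => hasDerivWithinAt_const _ _ _) (by simp [hT.zero]) hcont
      (fun s hs => hasDeriv_norm_sq hT h hs.1)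
      (fun s hs => by
        have := re_nonneg_of_conditionI hm hc (generator_invariant hT h hs.1)
        linarith) (right_mem_Icc.2 ht)
    exact le_of_sq_le_sq h1 (norm_nonneg _)
  by_contra hcon
  push Not at hcon
  obtain ⟨x', y', h1, h2⟩ := exists_generator_near hT x
    (show 0 < (‖x‖ - ‖T t x‖) / 3 by linarith)
  have h3 := hdom x' y' h1
  have h4 : ‖T t (x - x')‖ ≤ ‖x - x'‖ := norm_apply_le hT ht _
  rw [map_sub] at h4
  have h5 : ‖x‖ ≤ ‖x'‖ + ‖x - x'‖ := by
    have := norm_add_le x' (x - x')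
    simpa using this
  have h6 : ‖T t x'‖ ≤ ‖T t x‖ + ‖T t x - T t x'‖ := by
    have := norm_sub_le (T t x) (T t x - T t x')
    simpa using this
  linarith

/-- Semigroups of isometries satisfy condition (i) with `m = 1`. -/
theorem conditionI_of_norm_eq (hiso : ∀ t : ℝ, 0 ≤ t → ∀ x : H, ‖T t x‖ = ‖x‖) :
    ConditionI T 1 := by
  intro x y hxy μ hμ
  have h0 : (⟪x, y⟫_ℂ).re = 0 := by
    have h1 := tendsto_quot T (ContinuousLinearMap.id ℂ H) (fun f g => rfl) hxy
    simp only [ContinuousLinearMap.id_apply] at h1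
    have h2 : (fun h : ℝ => h⁻¹ * ((⟪T h x, T h x⟫_ℂ).re - (⟪x, x⟫_ℂ).re)) =ᶠ[𝓝[>] 0]
        fun _ => 0 := by
      filter_upwards [self_mem_nhdsWithin] with h hh
      have hh' : (0 : ℝ) ≤ h := le_of_lt hh
      have e3 : ∀ v : H, (⟪v, v⟫_ℂ).re = ‖v‖ ^ 2 := fun v => inner_self_eq_norm_sq (𝕜 := ℂ) v
      rw [e3, e3, hiso h hh' x, sub_self, mul_zero]
    have h3 := tendsto_nhds_unique (h1.congr' h2) tendsto_const_nhds
    linarith
  rcases eq_or_lt_of_le (norm_nonneg x) with hx | hx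
  · rw [← hx, mul_zero]
    exact norm_nonneg _
  · have h4 : (⟪x, μ • x - y⟫_ℂ).re = μ.re * ‖x‖ ^ 2 := by
      rw [inner_sub_right, inner_smul_right, inner_self_eq_norm_sq_to_K, Complex.sub_re, h0,
        sub_zero]
      have : (μ * ((RCLike.ofReal ‖x‖ : ℂ)) ^ 2) = μ * ((‖x‖ ^ 2 : ℝ) : ℂ) := by push_cast; rfl
      rw [this, Complex.re_mul_ofReal]
    have h5 : |μ.re| * ‖x‖ ^ 2 ≤ ‖x‖ * ‖μ • x - y‖ := by
      have h6 := (Complex.abs_re_le_norm (⟪x, μ • x - y⟫_ℂ)).trans (norm_inner_le_norm _ _)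
      rw [h4, abs_mul, abs_of_nonneg (by positivity : 0 ≤ ‖x‖ ^ 2)] at h6
      exact h6
    rw [one_mul]
    nlinarith

end

end Pool.Agent.Lib.MP_8a8b2f_an.K
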