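import Mathlib

/-!
# MP_8a8b2f_an: the measure `(1+x)^(-2k) dx` on `(0, ∞)`
-/

set_option autoImplicit false

open MeasureTheory Set Filter Topology
open scoped ENNReal NNReal

noncomputable section

namespace Pool.Agent.Lib.MP_8a8b2f_an.K

/-- `((1+x)/(1+x+t))^b` -/
def P (b t x : ℝ) : ℝ := ((1 + x) / (1 + x + t)) ^ b

/-- The weight `(1 + |x|)^(-2k)`. -/
def w (k : ℝ) (x : ℝ) : ℝ := (1 + |x|) ^ (-(2 * k))

lemma w_pos (k x : ℝ) : 0 < w k x := by unfold w; positivity

lemma w_nonneg (k x : ℝ) : 0 ≤ w k x := (w_pos k x).le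

lemma continuous_w (k : ℝ) : Continuous (w k) := by
  unfold w
  have h : Continuous (fun x : ℝ => 1 + |x|) := by fun_prop
  refine h.rpow_const fun x => Or.inl ?_
  have := abs_nonneg x
  exact ne_of_gt (by show 0 < 1 + |x|; linarith)

lemma measurable_w (k : ℝ) : Measurable (w k) := (continuous_w k).measurable

/-- The weight as a nonnegative real. -/
def wn (k : ℝ) (x : ℝ) : ℝ≥0 := ⟨w k x, w_nonneg k x⟩

lemma continuous_wn (k : ℝ) : Continuous (wn k) := (continuous_w k).subtype_mk _

lemma measurable_wn (k : ℝ) : Measurable (wn k) := (continuous_wn k).measurable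

lemma coe_wn (k x : ℝ) : (wn k x : ℝ≥0∞) = ENNReal.ofReal (w k x) := by
  rw [ENNReal.ofReal]
  congr 1
  ext
  rw [Real.coe_toNNReal _ (w_nonneg k x)]
  rfl

lemma measurable_shift (t : ℝ) : Measurable (fun x : ℝ => x - t) := by fun_prop

/-- The measure `(1+x)^(-2k) dx` on `(0, ∞)`. -/
def nu (k : ℝ) : Measure ℝ :=
  (volume.restrict (Ioi (0 : ℝ))).withDensity (fun x => (wn k x : ℝ≥0∞))

instance (k : ℝ) : IsLocallyFiniteMeasure (nu k) :=
  IsLocallyFiniteMeasure.withDensity_coe (continuous_wn k)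

/-- ratio of weights -/
def rho (k t x : ℝ) : ℝ := P (2 * k) t x

lemma P_nonneg (b : ℝ) {t x : ℝ} (ht : 0 ≤ t) (hx : 0 < x) : 0 ≤ P b t x := by
  unfold P; positivity

lemma measurable_P (b t : ℝ) : Measurable (P b t) := by
  unfold P
  fun_prop

lemma P_le_one {b t x : ℝ} (hb : 0 ≤ b) (ht : 0 ≤ t) (hx : 0 < x) : P b t x ≤ 1 := by
  unfold P
  have h1 : (1 + x) / (1 + x + t) ≤ 1 := by
    rw [div_le_one (by positivity)]; linarith
  exact Real.rpow_le_one (by positivity) h1 hb

lemma w_add {k t x : ℝ} (ht : 0 ≤ t) (hx : 0 < x) : w k (x + t) = w k x * rho k t x := by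
  unfold w rho P
  rw [abs_of_pos hx, abs_of_pos (by linarith), Real.div_rpow (by positivity) (by positivity),
    Real.rpow_neg (by positivity), Real.rpow_neg (by positivity)]
  have h1 : (1 + (x + t)) = 1 + x + t := by ring
  rw [h1]
  have h2 : (1 + x) ^ (2 * k) ≠ 0 := by positivity
  have h3 : (1 + x + t) ^ (2 * k) ≠ 0 := by positivity
  field_simp

/-- Change of variables for Bochner integrals. -/
lemma integral_shift (k : ℝ) {t : ℝ} (ht : 0 ≤ t) (G : ℝ → ℝ) :
    ∫ x, (Ioi t).indicator (fun y => G (y - t)) x ∂(nu k) = ∫ x, rho k t x * G x ∂(nu k) := by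
  unfold nu
  rw [integral_withDensity_eq_integral_smul (measurable_wn k),
    integral_withDensity_eq_integral_smul (measurable_wn k)]
  rw [← integral_indicator measurableSet_Ioi, ← integral_indicator measurableSet_Ioi]
  rw [← integral_add_right_eq_self _ t]
  congr 1
  ext x
  by_cases hx : 0 < x
  · have h1 : x + t ∈ Ioi (0:ℝ) := by simp only [mem_Ioi]; linarith
    have h2 : x + t ∈ Ioi t := by simp only [mem_Ioi]; linarith
    have h3 : x ∈ Ioi (0:ℝ) := hx
    rw [indicator_of_mem h1, indicator_of_mem h2, indicator_of_mem h3]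
    simp only [NNReal.smul_def, smul_eq_mul, add_sub_cancel_right]
    show w k (x + t) * G x = w k x * (rho k t x * G x)
    rw [w_add ht hx]; ring
  · have h2 : x + t ∉ Ioi t := by simp only [mem_Ioi]; linarith
    have h3 : x ∉ Ioi (0:ℝ) := hx
    rw [indicator_of_notMem h3]
    by_cases h1 : x + t ∈ Ioi (0:ℝ)
    · rw [indicator_of_mem h1, indicator_of_notMem h2, smul_zero]
    · rw [indicator_of_notMem h1]

lemma lintegral_shift (k : ℝ) {t : ℝ} (ht : 0 ≤ t) (G : ℝ → ℝ≥0∞) (hG : Measurable G) :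
    ∫⁻ x, (Ioi t).indicator (fun y => G (y - t)) x ∂(nu k)
      = ∫⁻ x, ENNReal.ofReal (rho k t x) * G x ∂(nu k) := by
  unfold nu
  rw [lintegral_withDensity_eq_lintegral_mul _ ((measurable_wn k).coe_nnreal_ennreal)
      (show Measurable (fun x => (Ioi t).indicator (fun y => G (y - t)) x) from
        (hG.comp (measurable_shift t)).indicator measurableSet_Ioi),
    lintegral_withDensity_eq_lintegral_mul _ ((measurable_wn k).coe_nnreal_ennreal)
      (show Measurable (fun x => ENNReal.ofReal (rho k t x) * G x) from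
        ((measurable_P (2 * k) t).ennreal_ofReal.mul hG))]
  rw [← lintegral_indicator measurableSet_Ioi, ← lintegral_indicator measurableSet_Ioi]
  rw [← lintegral_add_right_eq_self _ t]
  congr 1
  ext x
  by_cases hx : 0 < x
  · have h1 : x + t ∈ Ioi (0:ℝ) := by simp only [mem_Ioi]; linarith
    have h2 : x + t ∈ Ioi t := by simp only [mem_Ioi]; linarith
    have h3 : x ∈ Ioi (0:ℝ) := hx
    rw [indicator_of_mem h1, indicator_of_mem h3]
    simp only [Pi.mul_apply]
    rw [indicator_of_mem h2]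
    simp only [add_sub_cancel_right]
    rw [← mul_assoc]
    congr 1
    rw [coe_wn, coe_wn, w_add ht hx, ENNReal.ofReal_mul (w_nonneg k x)]
  · have h2 : x + t ∉ Ioi t := by simp only [mem_Ioi]; linarith
    have h3 : x ∉ Ioi (0:ℝ) := hx
    rw [indicator_of_notMem h3]
    by_cases h1 : x + t ∈ Ioi (0:ℝ)
    · rw [indicator_of_mem h1]
      simp only [Pi.mul_apply]
      rw [indicator_of_notMem h2, mul_zero]
    · rw [indicator_of_notMem h1]

lemma ae_pos (k : ℝ) : ∀ᵐ x ∂(nu k), 0 < x := by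
  have h : ∀ᵐ x ∂(volume.restrict (Ioi (0 : ℝ))), 0 < x := ae_restrict_mem measurableSet_Ioi
  exact (withDensity_absolutelyContinuous _ _).ae_le h

lemma map_le {k t : ℝ} (hk : 0 ≤ k) (ht : 0 ≤ t) :
    ((nu k).restrict (Ioi t)).map (fun x => x - t) ≤ nu k := by
  refine Measure.le_iff.2 fun s hs => ?_
  rw [Measure.map_apply (measurable_shift t) hs]
  have hpre : MeasurableSet ((fun x : ℝ => x - t) ⁻¹' s) := (measurable_shift t) hs
  rw [Measure.restrict_apply hpre]
  rw [← lintegral_indicator_one (hpre.inter measurableSet_Ioi)]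
  have := lintegral_shift k ht (s.indicator 1) (measurable_one.indicator hs)
  have e : (fun x => (Ioi t).indicator (fun y => s.indicator (1 : ℝ → ℝ≥0∞) (y - t)) x)
      = ((fun x : ℝ => x - t) ⁻¹' s ∩ Ioi t).indicator 1 := by
    ext x
    by_cases h2 : x ∈ Ioi t <;> by_cases h1 : x - t ∈ s <;> simp_all [indicator]
  rw [e] at this
  rw [this, ← lintegral_indicator_one hs]
  refine lintegral_mono_ae ?_
  filter_upwards [ae_pos k] with x hx
  calc ENNReal.ofReal (rho k t x) * s.indicator 1 x ≤ 1 * s.indicator 1 x := by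
        gcongr
        exact ENNReal.ofReal_le_one.2 (P_le_one (by positivity) ht hx)
    _ = s.indicator 1 x := one_mul _

end Pool.Agent.Lib.MP_8a8b2f_an.K
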